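import Mathlib

namespace Pool.Agent.H9.Super

open Finset

/-- the rising factorial of one half -/
noncomputable def P (k : ℕ) : ℚ := (ascPochhammer ℚ k).eval (1/2)

/-- normalised central binomial coefficient -/
noncomputable def be (k : ℕ) : ℚ := P k / (k.factorial : ℚ)

lemma P_zero : P 0 = 1 := by simp [P]

lemma P_succ (k : ℕ) : P (k+1) = P k * (2*k+1) / 2 := by
  unfold P
  rw [ascPochhammer_succ_eval]
  ring

lemma P_ne (k : ℕ) : P k ≠ 0 := by
  induction k with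
  | zero => simp [P_zero]
  | succ k ih =>
    rw [P_succ]
    positivity

lemma be_zero : be 0 = 1 := by simp [be, P_zero]

lemma be_succ (k : ℕ) : be (k+1) = be k * (2*k+1) / (2*(k+1)) := by
  unfold be
  rw [P_succ, Nat.factorial_succ]
  have : (k.factorial : ℚ) ≠ 0 := by positivity
  push_cast
  field_simp

lemma be_ne (k : ℕ) : be k ≠ 0 := by
  unfold be
  have := P_ne k
  positivity

/-! ### First identity -/

lemma stepA (i j : ℕ) :
    2*(2*((i:ℚ)+j+1)+1)^2 * be (i+j+1)^2 * be (j+1) * be (i+j+1+i+1) / (2*i+1)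
      - 2*(2*((i:ℚ)+j)+1)^2 * be (i+j)^2 * be j * be (i+j+i+1) / (2*i+1)
    = (4*((i:ℚ)+j+1)+1) * be (i+j+1)^2 * be (j+1) * be (i+j+1+i)
      - (4*((i:ℚ)+j+1)+1) * be (i+j+1)^2 * be j * be (i+j+1+i+1) := by
  have h1 : i+j+i+1 = i+j+1+i := by ring
  rw [h1, be_succ (i+j+1+i), be_succ (i+j), be_succ j]
  push_cast
  have e1 : (i:ℚ)+j+1 ≠ 0 := by positivity
  have e2 : (j:ℚ)+1 ≠ 0 := by positivity
  have e3 : (i:ℚ)+j+1+i+1 ≠ 0 := by positivity
  have e4 : (2*(i:ℚ)+1) ≠ 0 := by positivity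
  field_simp
  ring

theorem identA (n : ℕ) :
    ∑ k ∈ range (n+1), (4*(k:ℚ)+1) * be k ^ 4
      = ∑ i ∈ range (n+1), 2*(2*(n:ℚ)+1)^2 * be n^2 * be (n-i) * be (n+i+1) / (2*i+1) := by
  induction n with
  | zero =>
    simp [be_zero, be_succ 0]
  | succ n ih =>
    rw [sum_range_succ, ih]
    rw [sum_range_succ (fun i => 2*(2*((n+1:ℕ):ℚ)+1)^2 * be (n+1)^2 * be (n+1-i) * be (n+1+i+1) / (2*i+1))]
    have key : ∑ i ∈ range (n+1), (2*(2*((n+1:ℕ):ℚ)+1)^2 * be (n+1)^2 * be (n+1-i) * be (n+1+i+1) / (2*i+1)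
        - 2*(2*(n:ℚ)+1)^2 * be n^2 * be (n-i) * be (n+i+1) / (2*i+1))
        = (4*((n+1:ℕ):ℚ)+1) * be (n+1)^2 * be (n+1) * be (n+1)
          - (4*((n+1:ℕ):ℚ)+1) * be (n+1)^2 * be 0 * be (n+1+(n+1)) := by
      have h := Finset.sum_range_sub' (fun i => (4*((n+1:ℕ):ℚ)+1) * be (n+1)^2 * be (n+1-i) * be (n+1+i)) (n+1)
      simp only [Nat.sub_zero, Nat.add_zero, Nat.sub_self] at h
      rw [← h]
      refine sum_congr rfl ?_
      intro i hi
      have hi' : i ≤ n := by simpa [Nat.lt_succ_iff] using hi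
      obtain ⟨j, rfl⟩ := Nat.exists_eq_add_of_le hi'
      have := stepA i j
      have a1 : i + j + 1 - i = j + 1 := by omega
      have a2 : i + j - i = j := by omega
      have a3 : i + j + 1 - (i+1) = j := by omega
      have a4 : i + j + 1 + (i + 1) = i+j+1+i+1 := by omega
      rw [a1, a2, a3, a4]
      push_cast
      linarith [this]
    rw [sum_sub_distrib] at key
    have hlast : 2*(2*((n+1:ℕ):ℚ)+1)^2 * be (n+1)^2 * be (n+1-(n+1)) * be (n+1+(n+1)+1) / (2*((n+1:ℕ):ℚ)+1)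
        = (4*((n+1:ℕ):ℚ)+1) * be (n+1)^2 * be 0 * be (n+1+(n+1)) := by
      rw [be_succ (n+1+(n+1))]
      simp only [Nat.sub_self]
      push_cast
      have e1 : 2*((n:ℚ)+1)+1 ≠ 0 := by positivity
      have e2 : (n:ℚ)+1+(n+1)+1 ≠ 0 := by positivity
      field_simp
      ring
    rw [hlast]
    linarith [key]

end Pool.Agent.H9.Super
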