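import Pool.Agent.H9.SuperA

namespace Pool.Agent.H9.Super

open Finset

/-- summand of the closed form for the second sum -/
noncomputable def fB (K i : ℕ) : ℚ :=
  if 2*i+1 ≤ K then
    2 * 4^K * (K:ℚ)^2 * be K * (-1)^i * P (K+i) * P (K-1-i) / ((K-1-2*i).factorial * (K+1+2*i).factorial)
  else 0

/-- telescoping certificate -/
noncomputable def hB (K i : ℕ) : ℚ :=
  if 2*i ≤ K then
    (3*(K:ℚ)+1) * 4^K * be K * (-1)^i * P (K+i) * P (K-i) / ((K-2*i).factorial * (K+2*i).factorial)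
  else 0

lemma fB_pos (i j : ℕ) : fB (2*i+1+j) i =
    2 * 4^(2*i+1+j) * (2*(i:ℚ)+1+j)^2 * be (2*i+1+j) * (-1)^i * P (3*i+1+j) * P (i+j)
      / (j.factorial * (4*i+2+j).factorial) := by
  unfold fB
  rw [if_pos (by omega)]
  have h1 : 2*i+1+j+i = 3*i+1+j := by ring
  have h2 : 2*i+1+j-1-i = i+j := by omega
  have h3 : 2*i+1+j-1-2*i = j := by omega
  have h4 : 2*i+1+j+1+2*i = 4*i+2+j := by ring
  rw [h1, h2, h3, h4]
  push_cast
  ring

lemma hB_pos (i j : ℕ) : hB (2*i+j) i =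
    (3*(2*(i:ℚ)+j)+1) * 4^(2*i+j) * be (2*i+j) * (-1)^i * P (3*i+j) * P (i+j)
      / (j.factorial * (4*i+j).factorial) := by
  unfold hB
  rw [if_pos (by omega)]
  have h1 : 2*i+j+i = 3*i+j := by ring
  have h2 : 2*i+j-i = i+j := by omega
  have h3 : 2*i+j-2*i = j := by omega
  have h4 : 2*i+j+2*i = 4*i+j := by ring
  rw [h1, h2, h3, h4]
  push_cast
  ring

lemma hB_next (i j : ℕ) : hB (2*i+1+j) (i+1) =
    - (3*(2*(i:ℚ)+1+j)+1) * 4^(2*i+1+j) * be (2*i+1+j) * (-1)^i * P (3*i+2+j) * P (i+j) * j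
      / (j.factorial * (4*i+3+j).factorial) := by
  cases j with
  | zero =>
    unfold hB
    rw [if_neg (by omega)]
    simp
  | succ j =>
    unfold hB
    rw [if_pos (by omega)]
    have h1 : 2*i+1+(j+1)+(i+1) = 3*i+2+(j+1) := by ring
    have h2 : 2*i+1+(j+1)-(i+1) = i+(j+1) := by omega
    have h3 : 2*i+1+(j+1)-2*(i+1) = j := by omega
    have h4 : 2*i+1+(j+1)+2*(i+1) = 4*i+3+(j+1) := by ring
    rw [h1, h2, h3, h4, Nat.factorial_succ j, pow_succ (-1:ℚ) i]
    have e1 : (j.factorial:ℚ) ≠ 0 := by positivity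
    have e2 : ((4*i+3+(j+1)).factorial:ℚ) ≠ 0 := by positivity
    have e3 : ((j:ℚ)+1) ≠ 0 := by positivity
    push_cast
    field_simp

lemma stepB_main (i j : ℕ) : fB (2*i+1+j+1) i - fB (2*i+1+j) i = hB (2*i+1+j) i - hB (2*i+1+j) (i+1) := by
  rw [hB_next, fB_pos i j]
  have h1 : fB (2*i+1+j+1) i = fB (2*i+1+(j+1)) i := by ring_nf
  rw [h1, fB_pos i (j+1)]
  have h2 : hB (2*i+1+j) i = hB (2*i+(j+1)) i := by
    have : 2*i+1+j = 2*i+(j+1) := by ring
    rw [this]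
  rw [h2, hB_pos]
  have k1 : 2*i+1+(j+1) = (2*i+1+j)+1 := by ring
  have k2 : 3*i+1+(j+1) = (3*i+1+j)+1 := by ring
  have k3 : i+(j+1) = (i+j)+1 := by ring
  have k4 : 4*i+2+(j+1) = (4*i+1+j)+1+1 := by ring
  have k5 : 4*i+2+j = (4*i+1+j)+1 := by ring
  have k6 : 4*i+3+j = (4*i+1+j)+1+1 := by ring
  have k7 : 4*i+(j+1) = 4*i+1+j := by ring
  have k8 : 2*i+(j+1) = 2*i+1+j := by ring
  have k9 : 3*i+2+j = (3*i+1+j)+1 := by ring
  have k10 : 3*i+(j+1) = 3*i+1+j := by ring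
  rw [k1, k2, k3, k4, k5, k6, k7, k8, k9, k10]
  rw [be_succ, P_succ (3*i+1+j), P_succ (i+j), Nat.factorial_succ (4*i+1+j+1), Nat.factorial_succ (4*i+1+j),
    Nat.factorial_succ j, pow_succ (4:ℚ) (2*i+1+j)]
  have e1 : (j.factorial:ℚ) ≠ 0 := by positivity
  have e2 : ((4*i+1+j).factorial:ℚ) ≠ 0 := by positivity
  have e3 : ((j:ℚ)+1) ≠ 0 := by positivity
  have e4 : (4*(i:ℚ)+1+j+1) ≠ 0 := by positivity
  have e5 : (4*(i:ℚ)+1+j+1+1) ≠ 0 := by positivity
  have e6 : (2*(i:ℚ)+1+j+1) ≠ 0 := by positivity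
  push_cast
  field_simp
  ring

lemma stepB (K i : ℕ) : fB (K+1) i - fB K i = hB K i - hB K (i+1) := by
  rcases Nat.lt_or_ge K (2*i) with h | h
  · unfold fB hB
    rw [if_neg (by omega), if_neg (by omega), if_neg (by omega), if_neg (by omega)]
  · rcases Nat.eq_or_lt_of_le h with h | h
    · subst h
      have h1 : fB (2*i) i = 0 := by unfold fB; rw [if_neg (by omega)]
      have h2 : hB (2*i) (i+1) = 0 := by unfold hB; rw [if_neg (by omega)]
      have h3 := fB_pos i 0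
      have h4 := hB_pos i 0
      rw [Nat.add_zero] at h3 h4
      rw [h1, h2, h3, h4]
      simp only [Nat.add_zero]
      have k2 : 3*i+1 = (3*i)+1 := by ring
      have k4 : 4*i+2 = (4*i)+1+1 := by ring
      rw [k4, P_succ (3*i), Nat.factorial_succ (4*i+1), Nat.factorial_succ (4*i), be_succ (2*i), pow_succ (4:ℚ) (2*i)]
      have e2 : ((4*i).factorial:ℚ) ≠ 0 := by positivity
      have e4 : (4*(i:ℚ)+1) ≠ 0 := by positivity
      have e5 : (4*(i:ℚ)+1+1) ≠ 0 := by positivity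
      have e6 : (2*(i:ℚ)+1) ≠ 0 := by positivity
      push_cast
      field_simp
      ring
    · obtain ⟨j, rfl⟩ := Nat.exists_eq_add_of_le h
      have := stepB_main i j
      have e : (2*i).succ + j = 2*i+1+j := by omega
      rw [e]
      exact this

lemma hB_zero (K : ℕ) : hB K 0 = (3*(K:ℚ)+1) * be K^3 * 4^K := by
  unfold hB
  rw [if_pos (by omega)]
  simp only [Nat.mul_zero, Nat.add_zero, Nat.sub_zero, pow_zero]
  have hP : P K = be K * K.factorial := by
    unfold be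
    have : (K.factorial : ℚ) ≠ 0 := by positivity
    field_simp
  rw [hP]
  have : (K.factorial : ℚ) ≠ 0 := by positivity
  field_simp

theorem identB (K M : ℕ) (hM : K ≤ 2 * M) :
    ∑ k ∈ range K, (3*(k:ℚ)+1) * be k ^ 3 * 4^k = ∑ i ∈ range M, fB K i := by
  induction K with
  | zero =>
    symm
    simp only [range_zero, sum_empty]
    apply sum_eq_zero
    intro i _
    unfold fB
    rw [if_neg (by omega)]
  | succ K ih =>
    rw [sum_range_succ, ih (by omega)]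
    have h : ∑ i ∈ range M, (fB (K+1) i - fB K i) = hB K 0 - hB K M := by
      rw [← Finset.sum_range_sub' (fun i => hB K i) M]
      exact sum_congr rfl (fun i _ => stepB K i)
    have h2 : hB K M = 0 := by unfold hB; rw [if_neg (by omega)]
    rw [sum_sub_distrib, h2, hB_zero] at h
    linarith [h]

end Pool.Agent.H9.Super
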