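import Pool.Agent.H9.SuperB

namespace Pool.Agent.H9.Super

open Finset

/-- `O p m x`: the `p`-adic valuation of `x` is at least `m` -/
def O (p : ℕ) (m : ℕ) (x : ℚ) : Prop := padicNorm p x ≤ (p:ℚ)^(-(m:ℤ))

section
set_option linter.unusedSectionVars false
variable {p : ℕ} [hp : Fact p.Prime]

lemma O_zero_right (m : ℕ) : O p m 0 := by
  unfold O
  rw [padicNorm.zero]
  positivity

lemma O_mono {m k : ℕ} {x : ℚ} (h : O p m x) (hk : k ≤ m) : O p k x := by
  unfold O at *
  refine h.trans ?_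
  have : (1:ℚ) ≤ p := by exact_mod_cast hp.out.one_lt.le
  exact zpow_le_zpow_right₀ this (by omega)

lemma O_add {m : ℕ} {x y : ℚ} (hx : O p m x) (hy : O p m y) : O p m (x+y) := by
  unfold O at *
  exact padicNorm.nonarchimedean.trans (max_le hx hy)

lemma O_neg {m : ℕ} {x : ℚ} (hx : O p m x) : O p m (-x) := by
  unfold O at *
  rwa [padicNorm.neg]

lemma O_sub {m : ℕ} {x y : ℚ} (hx : O p m x) (hy : O p m y) : O p m (x-y) := by
  rw [sub_eq_add_neg]
  exact O_add hx (O_neg hy)

lemma O_mul {m k : ℕ} {x y : ℚ} (hx : O p m x) (hy : O p k y) : O p (m+k) (x*y) := by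
  unfold O at *
  rw [padicNorm.mul]
  have h0 : (p:ℚ) ≠ 0 := by exact_mod_cast hp.out.ne_zero
  have : (p:ℚ)^(-((m+k:ℕ):ℤ)) = (p:ℚ)^(-(m:ℤ)) * (p:ℚ)^(-(k:ℤ)) := by
    rw [← zpow_add₀ h0]
    congr 1
    push_cast
    ring
  rw [this]
  exact mul_le_mul hx hy (padicNorm.nonneg _) (by positivity)

lemma O_mul_int {m : ℕ} {x y : ℚ} (hx : O p m x) (hy : O p 0 y) : O p m (x*y) := by
  simpa using O_mul hx hy

lemma O_int_mul {m : ℕ} {x y : ℚ} (hx : O p 0 x) (hy : O p m y) : O p m (x*y) := by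
  simpa using O_mul hx hy

lemma O_sum {ι : Type*} {s : Finset ι} {f : ι → ℚ} {m : ℕ} (h : ∀ i ∈ s, O p m (f i)) :
    O p m (∑ i ∈ s, f i) := by
  classical
  induction s using Finset.induction_on with
  | empty => simpa using O_zero_right m
  | insert a s ha ih =>
    rw [sum_insert ha]
    exact O_add (h a (mem_insert_self a s)) (ih (fun i hi => h i (mem_insert_of_mem hi)))

lemma O_nat (k : ℕ) : O p 0 (k:ℚ) := by
  unfold O
  simpa using padicNorm.of_nat (p := p) k

lemma O_one : O p 0 (1:ℚ) := by simpa using O_nat (p := p) 1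

lemma O_of_norm_one {x : ℚ} (h : padicNorm p x = 1) : O p 0 x := by
  unfold O
  simp [h]

lemma O_inv_of_norm_one {x : ℚ} (h : padicNorm p x = 1) : O p 0 x⁻¹ := by
  have h1 : padicNorm p x⁻¹ = 1 := by
    have := padicNorm.div (p := p) 1 x
    rw [one_div] at this
    rw [this, h]
    simp
  exact O_of_norm_one h1

lemma O_div_unit {m : ℕ} {x y : ℚ} (hx : O p m x) (h : padicNorm p y = 1) : O p m (x/y) := by
  rw [div_eq_mul_inv]
  exact O_mul_int hx (O_inv_of_norm_one h)

lemma norm_one_add {x : ℚ} (h : O p 1 x) : padicNorm p (1+x) = 1 := by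
  have h1 : padicNorm p x < 1 := by
    unfold O at h
    refine lt_of_le_of_lt h ?_
    have hp1 : (1:ℚ) < p := by exact_mod_cast hp.out.one_lt
    have : (p:ℚ)^(-((1:ℕ):ℤ)) = (p:ℚ)⁻¹ := by simp
    rw [this]
    exact inv_lt_one_of_one_lt₀ hp1
  have h2 : padicNorm p (1:ℚ) ≠ padicNorm p x := by
    rw [padicNorm.one]
    exact h1.ne'
  rw [padicNorm.add_eq_max_of_ne h2, padicNorm.one]
  exact max_eq_left h1.le

lemma norm_one_sub {x : ℚ} (h : O p 1 x) : padicNorm p (1-x) = 1 := by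
  rw [sub_eq_add_neg]
  exact norm_one_add (O_neg h)

lemma norm_prod_one {ι : Type*} {s : Finset ι} {f : ι → ℚ} (h : ∀ i ∈ s, padicNorm p (f i) = 1) :
    padicNorm p (∏ i ∈ s, f i) = 1 := by
  classical
  induction s using Finset.induction_on with
  | empty => simp
  | insert a s ha ih =>
    rw [prod_insert ha, padicNorm.mul, h a (mem_insert_self a s),
      ih (fun i hi => h i (mem_insert_of_mem hi)), one_mul]

/-- product of terms close to one -/
lemma O_prod_sub_one {ι : Type*} {s : Finset ι} {f : ι → ℚ} {m : ℕ} (h : ∀ i ∈ s, O p m (f i - 1)) :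
    O p m (∏ i ∈ s, f i - 1) := by
  classical
  induction s using Finset.induction_on with
  | empty => simpa using O_zero_right m
  | insert a s ha ih =>
    rw [prod_insert ha]
    have e1 := ih (fun i hi => h i (mem_insert_of_mem hi))
    have e2 := h a (mem_insert_self a s)
    have e3 : O p 0 (f a) := by
      have := O_add (O_mono e2 (Nat.zero_le m)) (O_one (p := p))
      simpa using this
    have : f a * ∏ i ∈ s, f i - 1 = f a * (∏ i ∈ s, f i - 1) + (f a - 1) := by ring
    rw [this]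
    exact O_add (O_int_mul e3 e1) e2

/-- second order expansion of a product -/
lemma O_prod_expand {ι : Type*} {s : Finset ι} {g : ι → ℚ} {m : ℕ} (h : ∀ i ∈ s, O p m (g i)) :
    O p (m+m) (∏ i ∈ s, (1 - g i) - (1 - ∑ i ∈ s, g i)) := by
  classical
  induction s using Finset.induction_on with
  | empty => simpa using O_zero_right (m+m)
  | insert a s ha ih =>
    rw [prod_insert ha, sum_insert ha]
    have e1 := ih (fun i hi => h i (mem_insert_of_mem hi))
    have e2 := h a (mem_insert_self a s)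
    have e3 : O p m (∑ i ∈ s, g i) := O_sum (fun i hi => h i (mem_insert_of_mem hi))
    have e4 : O p 0 (1 - g a) := O_sub O_one (O_mono e2 (Nat.zero_le m))
    have : (1 - g a) * ∏ i ∈ s, (1 - g i) - (1 - (g a + ∑ i ∈ s, g i))
        = (1 - g a) * (∏ i ∈ s, (1 - g i) - (1 - ∑ i ∈ s, g i)) + g a * ∑ i ∈ s, g i := by ring
    rw [this]
    exact O_add (O_int_mul e4 e1) (O_mul e2 e3)

lemma norm_two (hodd : p ≠ 2) : padicNorm p (2:ℚ) = 1 := by
  have : padicNorm p ((2:ℕ):ℚ) = 1 := by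
    rw [padicNorm.nat_eq_one_iff]
    intro h
    have := (Nat.prime_dvd_prime_iff_eq hp.out Nat.prime_two).mp h
    exact hodd this
  simpa using this

/-- the basic small quantities -/
lemma O_t {r l : ℕ} (hl : 0 < l) (hlt : l < p^r) : O p 1 (((p^r:ℕ):ℚ) / l) := by
  have hp1 : 1 < p := hp.out.one_lt
  have h0 : (p:ℚ) ≠ 0 := by exact_mod_cast hp.out.ne_zero
  unfold O
  rw [padicNorm.div]
  have hN : padicNorm p ((p^r:ℕ):ℚ) = (p:ℚ)^(-(r:ℤ)) := by
    rw [padicNorm.eq_zpow_of_nonzero (by exact_mod_cast pow_ne_zero r hp.out.ne_zero)]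
    congr 1
    rw [padicValRat.of_nat, padicValNat.prime_pow]
  have hl' : padicNorm p (l:ℚ) = (p:ℚ)^(-(padicValNat p l:ℤ)) := by
    rw [padicNorm.eq_zpow_of_nonzero (by exact_mod_cast hl.ne'), padicValRat.of_nat]
  rw [hN, hl', ← zpow_sub₀ h0]
  have hv : padicValNat p l < r := by
    by_contra hcon
    have hcon := not_lt.mp hcon
    have h1 : p ^ r ∣ l := (pow_dvd_pow p hcon).trans pow_padicValNat_dvd
    exact absurd (Nat.le_of_dvd hl h1) (by omega)
  have h1p : (1:ℚ) ≤ p := by exact_mod_cast hp1.le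
  refine zpow_le_zpow_right₀ h1p ?_
  omega

end

end Pool.Agent.H9.Super
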