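import Pool.Agent.H9.SuperC

namespace Pool.Agent.H9.Super

open Finset

/-- normalised terms of the first closed form -/
noncomputable def aa (n m : ℕ) : ℚ :=
  (2*(n:ℚ)+1) * be m * be (2*n+1-m) / (be (2*n+1) * (2*(n:ℚ)+1-2*m))

/-- normalised terms of the second closed form -/
noncomputable def bb (n m : ℕ) : ℚ :=
  4^(2*n+1) * (2*(n:ℚ)+1) * (-1)^(n-m) * P (2*n+1+(n-m)) * P (n+m)
    / ((2*m).factorial * (2*(2*n+1)-2*m).factorial)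

lemma odd_sub_ne (a b : ℕ) : (2*(a:ℚ)+1) - 2*b ≠ 0 := by
  intro h
  have h1 : ((2*a+1:ℤ):ℚ) = ((2*b:ℤ):ℚ) := by push_cast; linarith
  have h2 : (2*a+1:ℤ) = 2*b := by exact_mod_cast h1
  omega

lemma aa_zero (n : ℕ) : aa n 0 = 1 := by
  unfold aa
  have h1 := be_ne (2*n+1)
  have h2 : (2*(n:ℚ)+1) ≠ 0 := by positivity
  simp only [be_zero, Nat.sub_zero]
  rw [Nat.cast_zero, mul_zero, sub_zero, mul_one, mul_comm]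
  exact div_self (mul_ne_zero h1 h2)

lemma aa_succ (n m : ℕ) (h : m+1 ≤ n) :
    aa n (m+1) = aa n m * ((2*(m:ℚ)+1) * (2*n+1-m) * (2*n+1-2*m)
      / ((m+1) * (2*(2*n+1)-2*m-1) * (2*n+1-2*(m+1)))) := by
  unfold aa
  obtain ⟨q, rfl⟩ := Nat.exists_eq_add_of_le h
  have k1 : 2*(m+1+q)+1-m = (m+2+2*q)+1 := by omega
  have k2 : 2*(m+1+q)+1-(m+1) = m+2+2*q := by omega
  rw [k1, k2, be_succ m, be_succ (m+2+2*q)]
  have h1 := be_ne (2*(m+1+q)+1)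
  push_cast
  have r1 : 2*(2*((m:ℚ)+1+q)+1)-2*m-1 = 2*m+4*q+5 := by ring
  have r2 : 2*((m:ℚ)+1+q)+1-2*m = 2*q+3 := by ring
  have r3 : 2*((m:ℚ)+1+q)+1-2*(m+1) = 2*q+1 := by ring
  have r4 : 2*((m:ℚ)+1+q)+1-m = m+2*q+3 := by ring
  rw [r1, r2, r3, r4]
  have e1 : (m:ℚ)+1 ≠ 0 := by positivity
  have e2 : (m:ℚ)+2+2*q+1 ≠ 0 := by positivity
  have e3 : 2*(m:ℚ)+4*q+5 ≠ 0 := by positivity
  have e4 : 2*(q:ℚ)+3 ≠ 0 := by positivity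
  have e5 : 2*(q:ℚ)+1 ≠ 0 := by positivity
  field_simp
  ring

lemma bb_succ (n m : ℕ) (h : m+1 ≤ n) :
    bb n (m+1) = - bb n m * ((2*(m:ℚ)+(2*n+1)) * (2*n+1-m) * (2*(2*n+1)-2*m-1)
      / ((3*(2*n+1)-2*(m+1)) * (2*m+1) * (m+1))) := by
  unfold bb
  obtain ⟨q, rfl⟩ := Nat.exists_eq_add_of_le h
  have k1 : m+1+q-m = q+1 := by omega
  have k2 : m+1+q-(m+1) = q := by omega
  have k3 : 2*(m+1) = 2*m+1+1 := by ring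
  have k4 : 2*(2*(m+1+q)+1)-2*m = (2*m+4*q+4)+1+1 := by omega
  have k5 : 2*(2*(m+1+q)+1)-(2*m+1+1) = (2*m+4*q+4) := by omega
  have k6 : m+1+q+(m+1) = (2*m+q+1)+1 := by ring
  have k7 : m+1+q+m = 2*m+q+1 := by ring
  have k8 : 2*(m+1+q)+1+(q+1) = (2*m+3*q+3)+1 := by ring
  have k9 : 2*(m+1+q)+1+q = (2*m+3*q+3) := by ring
  rw [k1, k2, k3, k4, k5, k6, k7, k8, k9, P_succ (2*m+q+1), P_succ (2*m+3*q+3),
    Nat.factorial_succ (2*m+1), Nat.factorial_succ (2*m), Nat.factorial_succ (2*m+4*q+4+1),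
    Nat.factorial_succ (2*m+4*q+4), pow_succ (-1:ℚ) q]
  have f1 : ((2*m).factorial:ℚ) ≠ 0 := by positivity
  have f2 : ((2*m+4*q+4).factorial:ℚ) ≠ 0 := by positivity
  push_cast
  have r1 : 3*(2*((m:ℚ)+1+q)+1)-2*(m+1) = 4*m+6*q+7 := by ring
  have r2 : 2*(2*((m:ℚ)+1+q)+1)-2*m-1 = 2*m+4*q+5 := by ring
  have r3 : 2*((m:ℚ)+1+q)+1-m = m+2*q+3 := by ring
  rw [r1, r2, r3]
  have e1 : (m:ℚ)+1 ≠ 0 := by positivity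
  have e2 : 4*(m:ℚ)+6*q+7 ≠ 0 := by positivity
  have e3 : 2*(m:ℚ)+1+1 ≠ 0 := by positivity
  have e4 : 2*(m:ℚ)+4*q+4+1+1 ≠ 0 := by positivity
  have e5 : 2*(m:ℚ)+4*q+4+1 ≠ 0 := by positivity
  field_simp
  ring

lemma fB_eq_bb (n m : ℕ) (h : m ≤ n) : fB (2*n+1) (n-m) = 2*(2*(n:ℚ)+1) * be (2*n+1) * bb n m := by
  unfold fB bb
  rw [if_pos (by omega)]
  have k1 : 2*n+1-1-(n-m) = n+m := by omega
  have k2 : 2*n+1-1-2*(n-m) = 2*m := by omega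
  have k3 : 2*n+1+1+2*(n-m) = 2*(2*n+1)-2*m := by omega
  rw [k1, k2, k3]
  push_cast
  ring

lemma auxA (x c A B : ℚ) (hc : c ≠ 0) (hc1 : c+1 ≠ 0) (hB : B ≠ 0) (h1 : 2*c - x ≠ 0)
    (h2 : 2*(c+1) - x ≠ 0) (h3 : 2*c+1-2*x ≠ 0) (h4 : 2*c+1 ≠ 0) :
    (x/c)^2/2*(A/((1-x/c/2)*B)) * ((2*c+1)*(x-c)*(x-2*c)/((c+1)*(2*x-2*c-1)*(x-2*(c+1))))
      = (x/(c+1))^2/2*(A*(1-x/c)/((1-x/(c+1)/2)*(B*(1-2*x/(2*c+1))))) := by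
  have r1 : 1-x/c/2 = (2*c-x)/(2*c) := by field_simp
  have r2 : 1-x/(c+1)/2 = (2*(c+1)-x)/(2*(c+1)) := by field_simp
  have r3 : 1-2*x/(2*c+1) = (2*c+1-2*x)/(2*c+1) := by field_simp
  have r4 : 1-x/c = (c-x)/c := by field_simp
  have r5 : x-2*c = -(2*c-x) := by ring
  have r6 : 2*x-2*c-1 = -(2*c+1-2*x) := by ring
  have r7 : x-2*(c+1) = -(2*(c+1)-x) := by ring
  have r8 : x-c = -(c-x) := by ring
  rw [r1, r2, r3, r4, r5, r6, r7, r8]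
  generalize 2*c-x = u at *
  generalize 2*(c+1)-x = v at *
  generalize 2*c+1-2*x = w at *
  generalize c-x = z at *
  generalize 2*c+1 = y at *
  field_simp

lemma auxB (x c A B C : ℚ) (hc : c ≠ 0) (hc1 : c+1 ≠ 0) (hC : C ≠ 0) 
    (h2 : 2*(c+1) - 3*x ≠ 0) (h4 : 2*c+1 ≠ 0) (b : ℚ) :
    -(-b * ((x/c)^2/2*(B*A/C))) * ((2*c+x)*(x-c)*(2*x-2*c-1)/((3*x-2*(c+1))*(2*c+1)*(c+1)))
      = -b*((x/(c+1))^2/2*(B*(1-2*x/(2*c+1))*(A*((1+x/c/2)*(1-x/c)))/(C*(1-3*(x/(c+1))/2)))) := by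
  have r1 : 1+x/c/2 = (2*c+x)/(2*c) := by field_simp
  have r2 : 1-3*(x/(c+1))/2 = (2*(c+1)-3*x)/(2*(c+1)) := by field_simp
  have r3 : 1-2*x/(2*c+1) = (2*c+1-2*x)/(2*c+1) := by field_simp
  have r4 : 1-x/c = (c-x)/c := by field_simp
  have r5 : 3*x-2*(c+1) = -(2*(c+1)-3*x) := by ring
  have r6 : 2*x-2*c-1 = -(2*c+1-2*x) := by ring
  have r8 : x-c = -(c-x) := by ring
  rw [r1, r2, r3, r4, r5, r6, r8]
  generalize 2*c+x = u at *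
  generalize 2*(c+1)-3*x = v at *
  generalize 2*c+1-2*x = w at *
  generalize c-x = z at *
  generalize 2*c+1 = y at *
  field_simp

/-- closed form of the `aa` -/
lemma aa_closed (n k : ℕ) (h : k+1 ≤ n) :
    aa n (k+1) = ((2*(n:ℚ)+1)/((k+1:ℕ):ℚ))^2/2 *
      ((∏ j ∈ range k, (1 - (2*(n:ℚ)+1)/((j+1:ℕ):ℚ))) /
        ((1 - (2*(n:ℚ)+1)/((k+1:ℕ):ℚ)/2) * ∏ l ∈ range (k+1), (1 - 2*(2*(n:ℚ)+1)/((2*l+1:ℕ):ℚ)))) := by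
  induction k with
  | zero =>
    rw [aa_succ n 0 h, aa_zero]
    simp only [range_zero, prod_empty, zero_add, range_one, prod_singleton, Nat.cast_one, mul_zero,
      Nat.cast_zero, zero_add, mul_one, sub_zero, div_one, one_mul]
    have h4 := odd_sub_ne n 1
    have h5 : 2*(2*(n:ℚ)+1) - 1 ≠ 0 := by
      have : 2*(2*(n:ℚ)+1) - 1 = 4*n+1 := by ring
      rw [this]
      positivity
    push_cast at h4
    have r1 : 1 - (2*(n:ℚ)+1)/2 = -(2*(n:ℚ)+1-2*1)/2 := by ring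
    have r2 : 1 - 2*(2*(n:ℚ)+1) = -(2*(2*(n:ℚ)+1)-1) := by ring
    rw [r1, r2]
    have r3 : 2*(n:ℚ)+1-2 = 2*(n:ℚ)+1-2*1 := by ring
    rw [r3]
    generalize 2*(n:ℚ)+1-2*1 = u at *
    generalize 2*(2*(n:ℚ)+1)-1 = v at *
    field_simp
  | succ k ih =>
    rw [aa_succ n (k+1) h, ih (by omega),
      prod_range_succ (fun j : ℕ => 1 - (2*(n:ℚ)+1)/((j+1:ℕ):ℚ)) k,
      prod_range_succ (fun l : ℕ => 1 - 2*(2*(n:ℚ)+1)/((2*l+1:ℕ):ℚ)) (k+1)]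
    have hBne : ∏ l ∈ range (k+1), (1 - 2*(2*(n:ℚ)+1)/((2*l+1:ℕ):ℚ)) ≠ 0 := by
      rw [prod_ne_zero_iff]
      intro l _
      have h1 := odd_sub_ne l (2*n+1)
      have h2 : ((2*l+1:ℕ):ℚ) ≠ 0 := by positivity
      intro h3
      apply h1
      field_simp at h3
      push_cast at h3 ⊢
      linarith
    have g1 := odd_sub_ne n (k+1)
    have g2 := odd_sub_ne n (k+2)
    have g3 := odd_sub_ne (k+1) (2*n+1)
    push_cast at g1 g2 g3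
    have e1 : (k:ℚ)+1 ≠ 0 := by positivity
    have e2 : (k:ℚ)+1+1 ≠ 0 := by positivity
    have e3 : 2*((k:ℚ)+1)+1 ≠ 0 := by positivity
    have := auxA (2*(n:ℚ)+1) ((k:ℚ)+1) (∏ j ∈ range k, (1 - (2*(n:ℚ)+1)/((j+1:ℕ):ℚ)))
      (∏ l ∈ range (k+1), (1 - 2*(2*(n:ℚ)+1)/((2*l+1:ℕ):ℚ))) e1 e2 hBne
      (by intro h; apply g1; linarith) (by intro h; apply g2; linarith)
      (by intro h; apply g3; linarith) e3
    push_cast at this ⊢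
    exact this

/-- closed form of the `bb` -/
lemma bb_closed (n k : ℕ) (h : k+1 ≤ n) (hne : ∀ l : ℕ, l < n → 1 - 3*((2*(n:ℚ)+1)/((l+1:ℕ):ℚ))/2 ≠ 0) :
    bb n (k+1) = - bb n 0 * (((2*(n:ℚ)+1)/((k+1:ℕ):ℚ))^2/2 *
      ((∏ l ∈ range (k+1), (1 - 2*(2*(n:ℚ)+1)/((2*l+1:ℕ):ℚ))) *
        (∏ l ∈ range k, ((1 + (2*(n:ℚ)+1)/((l+1:ℕ):ℚ)/2) * (1 - (2*(n:ℚ)+1)/((l+1:ℕ):ℚ)))) /
          ∏ l ∈ range (k+1), (1 - 3*((2*(n:ℚ)+1)/((l+1:ℕ):ℚ))/2))) := by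
  induction k with
  | zero =>
    rw [bb_succ n 0 h]
    have h0 := hne 0 (by omega)
    simp only [range_zero, prod_empty, zero_add, range_one, prod_singleton, Nat.cast_one, mul_zero,
      Nat.cast_zero, mul_one, sub_zero, div_one] at h0 ⊢
    have r1 : 1 - 3*(2*(n:ℚ)+1)/2 = -(3*(2*(n:ℚ)+1)-2)/2 := by ring
    rw [r1] at h0 ⊢
    have h1 : 3*(2*(n:ℚ)+1)-2 ≠ 0 := by
      intro h
      apply h0
      rw [h]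
      simp
    have r2 : 1 - 2*(2*(n:ℚ)+1) = -(2*(2*(n:ℚ)+1)-1) := by ring
    rw [r2]
    generalize 3*(2*(n:ℚ)+1)-2 = u at *
    generalize 2*(2*(n:ℚ)+1)-1 = v at *
    field_simp
  | succ k ih =>
    rw [bb_succ n (k+1) h, ih (by omega),
      prod_range_succ (fun l : ℕ => (1 + (2*(n:ℚ)+1)/((l+1:ℕ):ℚ)/2) * (1 - (2*(n:ℚ)+1)/((l+1:ℕ):ℚ))) k,
      prod_range_succ (fun l : ℕ => 1 - 2*(2*(n:ℚ)+1)/((2*l+1:ℕ):ℚ)) (k+1),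
      prod_range_succ (fun l : ℕ => 1 - 3*((2*(n:ℚ)+1)/((l+1:ℕ):ℚ))/2) (k+1)]
    have hCne : ∏ l ∈ range (k+1), (1 - 3*((2*(n:ℚ)+1)/((l+1:ℕ):ℚ))/2) ≠ 0 := by
      rw [prod_ne_zero_iff]
      intro l hl
      exact hne l (by have := mem_range.mp hl; omega)
    have g0 := hne (k+1) (by omega)
    push_cast at g0
    have e1 : (k:ℚ)+1 ≠ 0 := by positivity
    have e2 : (k:ℚ)+1+1 ≠ 0 := by positivity
    have e3 : 2*((k:ℚ)+1)+1 ≠ 0 := by positivity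
    have := auxB (2*(n:ℚ)+1) ((k:ℚ)+1) (∏ l ∈ range k, ((1 + (2*(n:ℚ)+1)/((l+1:ℕ):ℚ)/2) * (1 - (2*(n:ℚ)+1)/((l+1:ℕ):ℚ))))
      (∏ l ∈ range (k+1), (1 - 2*(2*(n:ℚ)+1)/((2*l+1:ℕ):ℚ)))
      (∏ l ∈ range (k+1), (1 - 3*((2*(n:ℚ)+1)/((l+1:ℕ):ℚ))/2)) e1 e2 hCne
      (by intro h; apply g0; field_simp; linarith) e3 (bb n 0)
    push_cast at this ⊢
    exact this

end Pool.Agent.H9.Super
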