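import Pool.Agent.H9.SuperD

namespace Pool.Agent.H9.Super

open Finset

/-- first sum in closed form -/
lemma sumA (n : ℕ) : ∑ k ∈ range (n+1), (4*(k:ℚ)+1) * be k ^ 4
    = 2*(2*(n:ℚ)+1) * be (2*n+1) * (be n ^ 2 * (1 + ∑ k ∈ range n, aa n (k+1))) := by
  rw [identA n, ← Finset.sum_range_reflect]
  have h1 : ∀ j ∈ range (n+1), 2*(2*(n:ℚ)+1)^2 * be n^2 * be (n-(n+1-1-j)) * be (n+(n+1-1-j)+1)
      / (2*((n+1-1-j:ℕ):ℚ)+1) = 2*(2*(n:ℚ)+1) * be (2*n+1) * be n^2 * aa n j := by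
    intro j hj
    have hj' : j ≤ n := by simpa [Nat.lt_succ_iff] using hj
    obtain ⟨q, rfl⟩ := Nat.exists_eq_add_of_le hj'
    unfold aa
    have k1 : j+q+1-1-j = q := by omega
    have k2 : j+q-q = j := by omega
    have k3 : j+q+q+1 = 2*(j+q)+1-j := by omega
    rw [k1, k2, k3]
    have h1 := be_ne (2*(j+q)+1)
    push_cast
    have r1 : 2*((j:ℚ)+q)+1-2*j = 2*q+1 := by ring
    rw [r1]
    have e1 : 2*(q:ℚ)+1 ≠ 0 := by positivity
    field_simp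
  rw [sum_congr rfl h1, ← mul_sum, sum_range_succ']
  rw [aa_zero]
  ring

lemma sumB (n : ℕ) : ∑ k ∈ range (2*n+1), (3*(k:ℚ)+1) * be k ^ 3 * 4^k
    = 2*(2*(n:ℚ)+1) * be (2*n+1) * (bb n 0 + ∑ k ∈ range n, bb n (k+1)) := by
  rw [identB (2*n+1) (n+1) (by omega), ← Finset.sum_range_reflect]
  have h1 : ∀ j ∈ range (n+1), fB (2*n+1) (n+1-1-j) = 2*(2*(n:ℚ)+1) * be (2*n+1) * bb n j := by
    intro j hj
    have hj' : j ≤ n := by simpa [Nat.lt_succ_iff] using hj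
    rw [← fB_eq_bb n j hj']
    congr 1
  rw [sum_congr rfl h1, ← mul_sum, sum_range_succ']
  ring

lemma prod_shift (y : ℚ) (n : ℕ) :
    ∏ l ∈ range n, (1 - (y+n)/((l+1:ℕ):ℚ)) = (-1)^n * (∏ j ∈ range n, (y+j)) / n.factorial := by
  have h1 : ∀ l ∈ range n, (1 - (y+n)/((l+1:ℕ):ℚ)) = (-1) * (y + n - ((l+1:ℕ):ℚ)) / ((l+1:ℕ):ℚ) := by
    intro l _
    have : ((l+1:ℕ):ℚ) ≠ 0 := by positivity
    field_simp
    ring
  rw [prod_congr rfl h1, prod_div_distrib, prod_mul_distrib, prod_const, card_range]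
  congr 1
  · congr 1
    rw [← Finset.prod_range_reflect (fun j : ℕ => y + (j:ℚ)) n]
    refine prod_congr rfl ?_
    intro l hl
    have := mem_range.mp hl
    have e : ((n-1-l:ℕ):ℚ) = (n:ℚ) - ((l+1:ℕ):ℚ) := by
      rw [← Nat.cast_sub (by omega)]
      congr 1
      omega
    rw [e]
    ring
  · rw [← Finset.prod_range_add_one_eq_factorial]
    push_cast
    rfl

lemma P_add (M n : ℕ) : P (M+n) = P M * ∏ j ∈ range n, ((M:ℚ)+1/2+j) := by
  induction n with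
  | zero => simp
  | succ n ih =>
    rw [← Nat.add_assoc, P_succ, ih, prod_range_succ]
    push_cast
    ring

lemma fact_two_mul (k : ℕ) : ((2*k).factorial : ℚ) = 4^k * k.factorial * P k := by
  induction k with
  | zero => simp [P_zero]
  | succ k ih =>
    have : 2*(k+1) = 2*k+1+1 := by ring
    rw [this, Nat.factorial_succ, Nat.factorial_succ, P_succ, Nat.factorial_succ k, pow_succ]
    push_cast
    rw [ih]
    ring

/-- `be n` as a product -/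
lemma be_prod (n : ℕ) : ∏ l ∈ range n, (1 - (2*(n:ℚ)+1)/((l+1:ℕ):ℚ)/2) = (-1)^n * be n := by
  have h := prod_shift (1/2) n
  have h2 := P_add 0 n
  rw [P_zero, Nat.zero_add] at h2
  have h3 : ∏ l ∈ range n, (1 - (2*(n:ℚ)+1)/((l+1:ℕ):ℚ)/2) = ∏ l ∈ range n, (1 - (1/2+(n:ℚ))/((l+1:ℕ):ℚ)) := by
    refine prod_congr rfl ?_
    intro l _
    ring
  rw [h3, h, be, h2]
  simp only [Nat.cast_zero, zero_add, one_mul]
  ring

/-- `∏ (1 - N/l)` -/
lemma full_prod (n : ℕ) : ∏ l ∈ range n, (1 - (2*(n:ℚ)+1)/((l+1:ℕ):ℚ)) = (-1)^n * 4^n * be n := by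
  have h := prod_shift ((n:ℚ)+1) n
  have h3 : ∏ l ∈ range n, (1 - (2*(n:ℚ)+1)/((l+1:ℕ):ℚ)) = ∏ l ∈ range n, (1 - ((n:ℚ)+1+(n:ℚ))/((l+1:ℕ):ℚ)) := by
    refine prod_congr rfl ?_
    intro l _
    ring
  rw [h3, h]
  have h4 : (∏ j ∈ range n, ((n:ℚ)+1+j)) * n.factorial = ((2*n).factorial : ℚ) := by
    have := Nat.factorial_mul_ascFactorial n n
    have h5 : (n+1).ascFactorial n = ∏ j ∈ range n, (n+1+j) := Nat.ascFactorial_eq_prod_range _ _
    have h6 : n + n = 2 * n := by ring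
    rw [h5, h6] at this
    rw [← this]
    push_cast
    ring
  rw [fact_two_mul] at h4
  have hf : (n.factorial:ℚ) ≠ 0 := by positivity
  have h5 : ∏ j ∈ range n, ((n:ℚ)+1+j) = 4^n * P n := by
    have : (∏ j ∈ range n, ((n:ℚ)+1+j)) * n.factorial = (4^n * P n) * n.factorial := by rw [h4]; ring
    exact mul_right_cancel₀ hf this
  rw [h5, be]
  ring

lemma three_prod (n : ℕ) : ∏ l ∈ range n, (1 - 3*((2*(n:ℚ)+1)/((l+1:ℕ):ℚ))/2)
    = (-1)^n * P (2*n+1+n) / (P (2*n+1) * n.factorial) := by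
  have h := prod_shift (2*(n:ℚ)+1+1/2) n
  have h2 := P_add (2*n+1) n
  have h3 : ∏ l ∈ range n, (1 - 3*((2*(n:ℚ)+1)/((l+1:ℕ):ℚ))/2)
      = ∏ l ∈ range n, (1 - (2*(n:ℚ)+1+1/2+(n:ℚ))/((l+1:ℕ):ℚ)) := by
    refine prod_congr rfl ?_
    intro l _
    ring
  rw [h3, h, h2]
  have := P_ne (2*n+1)
  push_cast
  field_simp

lemma bb_zero (n : ℕ) : bb n 0 * ∏ l ∈ range n, (1 - (2*(n:ℚ)+1)/((l+1:ℕ):ℚ))
    = (-1)^n * be n * ∏ l ∈ range n, (1 - 3*((2*(n:ℚ)+1)/((l+1:ℕ):ℚ))/2) := by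
  rw [full_prod, three_prod]
  unfold bb
  have k1 : 2*(2*n+1)-2*0 = 2*(2*n+1) := by omega
  rw [k1, fact_two_mul (2*n+1), Nat.factorial_succ (2*n)]
  push_cast
  rw [fact_two_mul n]
  simp only [mul_zero, Nat.factorial_zero, Nat.sub_zero, Nat.add_zero, Nat.cast_one, one_mul]
  have h1 := P_ne (2*n+1)
  have h2 := P_ne n
  have h3 : (n.factorial:ℚ) ≠ 0 := by positivity
  have h4 : (2*(n:ℚ)+1) ≠ 0 := by positivity
  have h5 : ((-1:ℚ)^n)^2 = 1 := by rw [← pow_mul, mul_comm, pow_mul]; simp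
  field_simp
  
lemma sum_two_ways (f : ℕ → ℚ) (n : ℕ) :
    ∑ l ∈ range n, (f (l+1) + f (2*n-l)) = ∑ l ∈ range n, (f (2*(l+1)) + f (2*n+1-2*(l+1))) := by
  have h1 : ∑ j ∈ range (n+n), f (j+1) = ∑ l ∈ range n, (f (l+1) + f (2*n-l)) := by
    rw [Finset.sum_range_add, sum_add_distrib]
    congr 1
    rw [← Finset.sum_range_reflect]
    refine sum_congr rfl ?_
    intro l hl
    have := mem_range.mp hl
    congr 1
    omega
  have h2 : ∑ j ∈ range (n+n), f (j+1) = ∑ l ∈ range n, (f (2*(l+1)) + f (2*n+1-2*(l+1))) := by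
    have h3 : ∀ m : ℕ, ∑ j ∈ range (m+m), f (j+1) = ∑ l ∈ range m, (f (2*(l+1)) + f (2*l+1)) := by
      intro m
      induction m with
      | zero => simp
      | succ m ih =>
        have : m+1+(m+1) = m+m+1+1 := by ring
        rw [this, sum_range_succ, sum_range_succ, ih, sum_range_succ]
        have e1 : m+m+1+1 = 2*(m+1) := by ring
        have e2 : m+m+1 = 2*m+1 := by ring
        rw [e1, e2]
        ring
    rw [h3, sum_add_distrib, sum_add_distrib]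
    congr 1
    rw [← Finset.sum_range_reflect]
    refine sum_congr rfl ?_
    intro l hl
    have := mem_range.mp hl
    congr 1
    omega
  rw [← h1, h2]

end Pool.Agent.H9.Super
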