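import Pool.Agent.H9.SuperE

namespace Pool.Agent.H9.Super

open Finset

section
set_option linter.unusedSectionVars false
variable {p : ℕ} [hp : Fact p.Prime]

lemma O_pow {x : ℚ} (h : O p 1 x) (k : ℕ) : O p k (x^k) := by
  induction k with
  | zero => simpa using O_one (p := p)
  | succ k ih =>
    rw [pow_succ]
    exact O_mul ih h

lemma O_half (h2 : p ≠ 2) : O p 0 (1/2 : ℚ) := by
  have := O_inv_of_norm_one (norm_two (p := p) h2)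
  simpa using this

lemma O_int_half (h2 : p ≠ 2) {m : ℕ} {x : ℚ} (h : O p m x) : O p m (x/2) :=
  O_div_unit h (norm_two h2)

lemma O_nat_mul {m : ℕ} {x : ℚ} (h : O p m x) (k : ℕ) : O p m ((k:ℚ)*x) :=
  O_int_mul (O_nat k) h

/-- the parity trick: `(3/2) t^2 + (7/4) t^3` sums to something divisible by `p^4` -/
lemma parity_sum (h2 : p ≠ 2) (n : ℕ)
    (ht : ∀ l < n, O p 1 ((2*(n:ℚ)+1)/((l+1:ℕ):ℚ))) :
    O p 4 (∑ l ∈ range n, (3/2*((2*(n:ℚ)+1)/((l+1:ℕ):ℚ))^2 + 7/4*((2*(n:ℚ)+1)/((l+1:ℕ):ℚ))^3)) := by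
  set x := 2*(n:ℚ)+1 with hx
  have hxpos : x ≠ 0 := by rw [hx]; positivity
  have h := sum_two_ways (fun j => (x/(j:ℚ))^2) n
  have e1 : ∀ l ∈ range n, (x/((l+1:ℕ):ℚ))^2 + (x/((2*n-l:ℕ):ℚ))^2
      = 2*(x/((l+1:ℕ):ℚ))^2 + 2*(x/((l+1:ℕ):ℚ))^3
        + (3*(x/((l+1:ℕ):ℚ))^4 - 2*(x/((l+1:ℕ):ℚ))^5)/(1-x/((l+1:ℕ):ℚ))^2 := by
    intro l hl
    have hl' := mem_range.mp hl
    have c1 : ((2*n-l:ℕ):ℚ) = x - ((l+1:ℕ):ℚ) := by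
      have : 2*n-l = 2*n+1-(l+1) := by omega
      rw [this, Nat.cast_sub (by omega), hx]
      push_cast
      ring
    have c2 : ((l+1:ℕ):ℚ) ≠ 0 := by positivity
    have c3 : x - ((l+1:ℕ):ℚ) ≠ 0 := by
      rw [← c1]
      have : 0 < 2*n-l := by omega
      positivity
    rw [c1]
    have c4 : x/(x - ((l+1:ℕ):ℚ)) = - (x/((l+1:ℕ):ℚ)) / (1 - x/((l+1:ℕ):ℚ)) := by
      have c5 : 1 - x/((l+1:ℕ):ℚ) = -(x - ((l+1:ℕ):ℚ))/((l+1:ℕ):ℚ) := by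
        field_simp
        ring
      rw [c5]
      field_simp
    have c6 : 1 - x/((l+1:ℕ):ℚ) ≠ 0 := by
      intro h
      apply c3
      field_simp at h
      linarith
    rw [c4]
    generalize x/((l+1:ℕ):ℚ) = t at *
    field_simp
    ring
  have e2 : ∀ l ∈ range n, (x/((2*(l+1):ℕ):ℚ))^2 + (x/((2*n+1-2*(l+1):ℕ):ℚ))^2
      = 1/2*(x/((l+1:ℕ):ℚ))^2 + 1/4*(x/((l+1:ℕ):ℚ))^3
        + (3*(x/((l+1:ℕ):ℚ))^4 - (x/((l+1:ℕ):ℚ))^5)/(16*(1-x/((l+1:ℕ):ℚ)/2)^2) := by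
    intro l hl
    have hl' := mem_range.mp hl
    have c1 : ((2*n+1-2*(l+1):ℕ):ℚ) = x - 2*((l+1:ℕ):ℚ) := by
      rw [Nat.cast_sub (by omega), hx]
      push_cast
      ring
    have c2 : ((l+1:ℕ):ℚ) ≠ 0 := by positivity
    have c3 : x - 2*((l+1:ℕ):ℚ) ≠ 0 := by
      rw [← c1]
      have : 0 < 2*n+1-2*(l+1) := by omega
      positivity
    have c0 : ((2*(l+1):ℕ):ℚ) = 2*((l+1:ℕ):ℚ) := by push_cast; ring
    rw [c1, c0]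
    have c7 : x/(2*((l+1:ℕ):ℚ)) = x/((l+1:ℕ):ℚ)/2 := by
      field_simp
    have c4 : x/(x - 2*((l+1:ℕ):ℚ)) = - (x/((l+1:ℕ):ℚ)/2) / (1 - x/((l+1:ℕ):ℚ)/2) := by
      have c5 : 1 - x/((l+1:ℕ):ℚ)/2 = -(x - 2*((l+1:ℕ):ℚ))/(2*((l+1:ℕ):ℚ)) := by
        field_simp
        ring
      rw [c5]
      field_simp
    have c6 : 1 - x/((l+1:ℕ):ℚ)/2 ≠ 0 := by
      intro h
      apply c3
      field_simp at h
      linarith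
    rw [c4, c7]
    generalize x/((l+1:ℕ):ℚ) = t at *
    have c8 : 1 - t/2 = (2-t)/2 := by ring
    have c9 : 2 - t ≠ 0 := by
      intro h
      apply c6
      rw [c8, h]
      simp
    rw [c8]
    field_simp
    ring
  rw [sum_congr rfl e1, sum_congr rfl e2] at h
  have h3 : ∑ l ∈ range n, (3/2*(x/((l+1:ℕ):ℚ))^2 + 7/4*(x/((l+1:ℕ):ℚ))^3)
      = ∑ l ∈ range n, ((3*(x/((l+1:ℕ):ℚ))^4 - (x/((l+1:ℕ):ℚ))^5)/(16*(1-x/((l+1:ℕ):ℚ)/2)^2)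
        - (3*(x/((l+1:ℕ):ℚ))^4 - 2*(x/((l+1:ℕ):ℚ))^5)/(1-x/((l+1:ℕ):ℚ))^2) := by
    have h4 : ∑ l ∈ range n, (3/2*(x/((l+1:ℕ):ℚ))^2 + 7/4*(x/((l+1:ℕ):ℚ))^3)
        - ∑ l ∈ range n, ((3*(x/((l+1:ℕ):ℚ))^4 - (x/((l+1:ℕ):ℚ))^5)/(16*(1-x/((l+1:ℕ):ℚ)/2)^2)
        - (3*(x/((l+1:ℕ):ℚ))^4 - 2*(x/((l+1:ℕ):ℚ))^5)/(1-x/((l+1:ℕ):ℚ))^2)
        = ∑ l ∈ range n, (2*(x/((l+1:ℕ):ℚ))^2 + 2*(x/((l+1:ℕ):ℚ))^3
        + (3*(x/((l+1:ℕ):ℚ))^4 - 2*(x/((l+1:ℕ):ℚ))^5)/(1-x/((l+1:ℕ):ℚ))^2)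
        - ∑ l ∈ range n, (1/2*(x/((l+1:ℕ):ℚ))^2 + 1/4*(x/((l+1:ℕ):ℚ))^3
        + (3*(x/((l+1:ℕ):ℚ))^4 - (x/((l+1:ℕ):ℚ))^5)/(16*(1-x/((l+1:ℕ):ℚ)/2)^2)) := by
      rw [← sum_sub_distrib, ← sum_sub_distrib]
      refine sum_congr rfl ?_
      intro l _
      ring
    rw [h, sub_self] at h4
    exact sub_eq_zero.mp h4
  rw [h3]
  apply O_sum
  intro l hl
  have hl' := mem_range.mp hl
  have hO := ht l hl'
  have hO4 : O p 4 ((x/((l+1:ℕ):ℚ))^4) := O_pow hO 4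
  have hO5 : O p 4 ((x/((l+1:ℕ):ℚ))^5) := O_mono (O_pow hO 5) (by norm_num)
  have n1 : padicNorm p ((1-x/((l+1:ℕ):ℚ))^2) = 1 := by
    rw [pow_two, padicNorm.mul, norm_one_sub hO, one_mul]
  have n2 : padicNorm p (16*(1-x/((l+1:ℕ):ℚ)/2)^2) = 1 := by
    have : (16:ℚ) = 2*2*2*2 := by norm_num
    rw [this]
    simp only [padicNorm.mul, pow_two, norm_one_sub (O_int_half h2 hO), norm_two h2, one_mul]
  apply O_sub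
  · apply O_div_unit _ n2
    exact O_sub (by simpa using O_nat_mul hO4 3) hO5
  · apply O_div_unit _ n1
    exact O_sub (by simpa using O_nat_mul hO4 3) (by simpa using O_nat_mul hO5 2)

end

end Pool.Agent.H9.Super
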