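import Pool.Agent.H9.SuperF

namespace Pool.Agent.H9.Super

open Finset

section
set_option linter.unusedSectionVars false
variable {p : ℕ} [hp : Fact p.Prime]

lemma be_int (h2 : p ≠ 2) (k : ℕ) : O p 0 (be k) := by
  have h : be k = (Nat.centralBinom k : ℚ) / 4^k := by
    have h1 := fact_two_mul k
    have h3 : (k.factorial:ℚ) ≠ 0 := by positivity
    have h4 : (Nat.centralBinom k : ℚ) * k.factorial * k.factorial = ((2*k).factorial:ℚ) := by
      have := Nat.choose_mul_factorial_mul_factorial (n := 2*k) (k := k) (by omega)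
      have e : 2*k-k = k := by omega
      rw [e] at this
      rw [Nat.centralBinom]
      exact_mod_cast this
    rw [h1] at h4
    have h5 : (Nat.centralBinom k : ℚ) = 4^k * P k / k.factorial := by
      field_simp
      have : ((Nat.centralBinom k : ℚ) * k.factorial) * k.factorial = (4^k * P k) * k.factorial := by
        rw [h4]; ring
      exact mul_right_cancel₀ h3 this
    rw [h5, be]
    field_simp
  rw [h]
  apply O_div_unit (O_nat _)
  have h4 : (4:ℚ)^k = ∏ i ∈ range k, (2*2:ℚ) := by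
    rw [prod_const, card_range]
    norm_num
  rw [h4]
  apply norm_prod_one
  intro i _
  rw [padicNorm.mul, norm_two h2, one_mul]

lemma comb_est (h2 : p ≠ 2) (t Pp Q : ℚ) (ht : O p 1 t) (hP : O p 1 (Pp-1)) (hQ : O p 1 (Q-1))
    (hPQ : O p 2 (Pp*Q-(1+2*t))) :
    O p 4 (t^2/2*Pp + t^2/2*Q - (t^2+t^3)) ∧ O p 2 (t^2/2*Q) := by
  have a1 : O p 2 (t^2/2) := O_int_half h2 (O_pow ht 2)
  have a2 : O p 2 ((Pp-1)*(Q-1)) := by
    have := O_mul hP hQ
    exact this
  constructor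
  · have e : t^2/2*Pp + t^2/2*Q - (t^2+t^3) = (t^2/2)*((Pp*Q-(1+2*t)) - (Pp-1)*(Q-1)) := by ring
    rw [e]
    have h4 : O p (2+2) ((t^2/2)*((Pp*Q-(1+2*t)) - (Pp-1)*(Q-1))) := O_mul a1 (O_sub hPQ a2)
    exact h4
  · have h5 : O p 0 (Q - 1 + 1) := O_add (O_mono hQ (Nat.zero_le 1)) (O_one (p := p))
    rw [sub_add_cancel] at h5
    exact O_mul_int a1 h5

/-- per-term estimate -/
lemma term_est (h2 : p ≠ 2) (t V U W X : ℚ) (R : ℚ) (ht : O p 1 t)
    (hV : O p 1 (V-1)) (hU : O p 1 (U-1)) (hW : O p 1 (W-1)) (hX : O p 1 (X-1))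
    (hR : O p 2 (R-1)) (hRel : V^2*W = R * X) :
    O p 4 (t^2/2*(V/((1-t/2)*U)) + t^2/2*(U*(W*V)/(X*(1-3*t/2))) - (t^2+t^3)) ∧
    O p 2 (t^2/2*(U*(W*V)/(X*(1-3*t/2)))) := by
  have nV : padicNorm p V = 1 := by
    have := norm_one_add hV
    simpa using this
  have nU : padicNorm p U = 1 := by
    have := norm_one_add hU
    simpa using this
  have nW : padicNorm p W = 1 := by
    have := norm_one_add hW
    simpa using this
  have nX : padicNorm p X = 1 := by
    have := norm_one_add hX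
    simpa using this
  have nt1 : padicNorm p (1-t/2) = 1 := norm_one_sub (O_int_half h2 ht)
  have h3t : O p 1 (3*t) := by simpa using O_nat_mul ht 3
  have nt2 : padicNorm p (1-3*t/2) = 1 := norm_one_sub (O_int_half h2 h3t)
  have ne0 : ∀ {y : ℚ}, padicNorm p y = 1 → y ≠ 0 := by
    intro y hy h0
    rw [h0, padicNorm.zero] at hy
    norm_num at hy
  have zV := ne0 nV
  have zU := ne0 nU
  have zW := ne0 nW
  have zX := ne0 nX
  have z1 := ne0 nt1
  have z2 := ne0 nt2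
  have iV : O p 0 V := O_of_norm_one nV
  have iU : O p 0 U := O_of_norm_one nU
  have iW : O p 0 W := O_of_norm_one nW
  have iX : O p 0 X := O_of_norm_one nX
  -- the two factors
  have hP : O p 1 (V/((1-t/2)*U) - 1) := by
    have e : V/((1-t/2)*U) - 1 = ((V-1) - (U-1) + (t/2)*U)/((1-t/2)*U) := by
      rw [eq_div_iff (mul_ne_zero z1 zU), sub_mul, div_mul_cancel₀ _ (mul_ne_zero z1 zU)]
      ring
    rw [e]
    apply O_div_unit
    · exact O_add (O_sub hV hU) (O_mul_int (O_int_half h2 ht) iU)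
    · rw [padicNorm.mul, nt1, nU, one_mul]
  have hQ : O p 1 (U*(W*V)/(X*(1-3*t/2)) - 1) := by
    have e : U*(W*V)/(X*(1-3*t/2)) - 1
        = ((U-1)*(W*V) + ((W-1)*V + (V-1)) - (X-1) + X*(3*t/2))/(X*(1-3*t/2)) := by
      rw [eq_div_iff (mul_ne_zero zX z2), sub_mul, div_mul_cancel₀ _ (mul_ne_zero zX z2)]
      ring
    rw [e]
    apply O_div_unit
    · refine O_add (O_sub (O_add (O_mul_int hU (by simpa using O_mul iW iV))
        (O_add (O_mul_int hW iV) hV)) hX) (O_int_mul iX (O_int_half h2 h3t))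
    · rw [padicNorm.mul, nt2, nX, one_mul]
  have hPQ : O p 2 (V/((1-t/2)*U) * (U*(W*V)/(X*(1-3*t/2))) - (1+2*t)) := by
    have e : V/((1-t/2)*U) * (U*(W*V)/(X*(1-3*t/2))) - (1+2*t)
        = ((R-1) + (t^2*(13/4) - t^3*(3/2)))/((1-t/2)*(1-3*t/2)) := by
      have e1 : V/((1-t/2)*U) * (U*(W*V)/(X*(1-3*t/2))) = (V^2*W)/(X*((1-t/2)*(1-3*t/2))) := by
        field_simp
      rw [e1, hRel]
      have e2 : R*X/(X*((1-t/2)*(1-3*t/2))) = R/((1-t/2)*(1-3*t/2)) := by
        field_simp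
      rw [e2, eq_div_iff (mul_ne_zero z1 z2), sub_mul, div_mul_cancel₀ _ (mul_ne_zero z1 z2)]
      ring
    rw [e]
    apply O_div_unit
    · refine O_add hR (O_sub ?_ ?_)
      · have : t^2*(13/4) = ((13:ℕ):ℚ)*(t^2)/2/2 := by push_cast; ring
        rw [this]
        exact O_int_half h2 (O_int_half h2 (O_nat_mul (O_pow ht 2) 13))
      · have : t^3*(3/2) = ((3:ℕ):ℚ)*(t^3)/2 := by push_cast; ring
        rw [this]
        exact O_mono (O_int_half h2 (O_nat_mul (O_pow ht 3) 3)) (by norm_num)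
    · rw [padicNorm.mul, nt1, nt2, one_mul]
  exact comb_est h2 t _ _ ht hP hQ hPQ

/-- the ratio estimate -/
lemma R_est (h2 : p ≠ 2) (k : ℕ) (t : ℕ → ℚ) (ht : ∀ l < k, O p 1 (t l)) :
    ∃ R : ℚ, O p 2 (R-1) ∧
      (∏ l ∈ range k, (1 - t l))^2 * (∏ l ∈ range k, (1 + t l/2))
        = R * ∏ l ∈ range k, (1 - 3*(t l)/2) := by
  refine ⟨∏ l ∈ range k, (1 + (t l)^3/2/(1-3*(t l)/2)), ?_, ?_⟩
  · apply O_prod_sub_one
    intro l hl
    have hl' := ht l (mem_range.mp hl)
    have h3t : O p 1 (3*(t l)) := by simpa using O_nat_mul hl' 3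
    have e : 1 + (t l)^3/2/(1-3*(t l)/2) - 1 = (t l)^3/2/(1-3*(t l)/2) := by ring
    rw [e]
    exact O_mono (O_div_unit (O_int_half h2 (O_pow hl' 3)) (norm_one_sub (O_int_half h2 h3t))) (by norm_num)
  · rw [← prod_pow, ← prod_mul_distrib, ← prod_mul_distrib]
    refine prod_congr rfl ?_
    intro l hl
    have hl' := ht l (mem_range.mp hl)
    have h3t : O p 1 (3*(t l)) := by simpa using O_nat_mul hl' 3
    have n1 : padicNorm p (1-3*(t l)/2) = 1 := norm_one_sub (O_int_half h2 h3t)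
    have z1 : (1-3*(t l)/2) ≠ 0 := by
      intro h0
      rw [h0, padicNorm.zero] at n1
      norm_num at n1
    rw [add_mul, div_mul_cancel₀ _ z1]
    ring

/-- the product ratio -/
lemma G_est (h2 : p ≠ 2) (n : ℕ) (t : ℕ → ℚ) (ht : ∀ l < n, O p 1 (t l)) :
    ∃ G : ℚ, O p 2 G ∧ O p 4 (G - ∑ l ∈ range n, ((t l)^2/2 + 3*(t l)^3/4)) ∧
      ∏ l ∈ range n, (1 - 3*(t l)/2)
        = (1 - G) * ((∏ l ∈ range n, (1 - t l/2)) * ∏ l ∈ range n, (1 - t l)) := by
  set g : ℕ → ℚ := fun l => (t l)^2/2/((1-t l)*(1-t l/2)) with hg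
  have hgO : ∀ l ∈ range n, O p 2 (g l) := by
    intro l hl
    have hl' := ht l (mem_range.mp hl)
    rw [hg]
    apply O_div_unit (O_int_half h2 (O_pow hl' 2))
    rw [padicNorm.mul, norm_one_sub hl', norm_one_sub (O_int_half h2 hl'), one_mul]
  have hexp := O_prod_expand (p := p) (s := range n) (g := g) (m := 2) hgO
  have hsum : O p 4 (∑ l ∈ range n, g l - ∑ l ∈ range n, ((t l)^2/2 + 3*(t l)^3/4)) := by
    rw [← sum_sub_distrib]
    apply O_sum
    intro l hl
    have hl' := ht l (mem_range.mp hl)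
    have n1 := norm_one_sub hl'
    have n2 := norm_one_sub (O_int_half h2 hl')
    have z1 : (1-t l) ≠ 0 := by
      intro h0
      rw [h0, padicNorm.zero] at n1
      norm_num at n1
    have z2 : (1-t l/2) ≠ 0 := by
      intro h0
      rw [h0, padicNorm.zero] at n2
      norm_num at n2
    have e : g l - ((t l)^2/2 + 3*(t l)^3/4) = (((7:ℕ):ℚ)*(t l)^4/2/2/2 - ((3:ℕ):ℚ)*(t l)^5/2/2/2)/((1-t l)*(1-t l/2)) := by
      rw [hg]
      simp only
      rw [eq_div_iff (mul_ne_zero z1 z2), sub_mul, div_mul_cancel₀ _ (mul_ne_zero z1 z2)]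
      push_cast
      ring
    rw [e]
    apply O_div_unit
    · apply O_sub
      · exact O_int_half h2 (O_int_half h2 (O_int_half h2 (O_nat_mul (O_pow hl' 4) 7)))
      · exact O_mono (O_int_half h2 (O_int_half h2 (O_int_half h2 (O_nat_mul (O_pow hl' 5) 3)))) (by norm_num)
    · rw [padicNorm.mul, n1, n2, one_mul]
  refine ⟨1 - ∏ l ∈ range n, (1 - g l), ?_, ?_, ?_⟩
  · have e : 1 - ∏ l ∈ range n, (1 - g l) = ∑ l ∈ range n, g l - (∏ l ∈ range n, (1 - g l) - (1 - ∑ l ∈ range n, g l)) := by ring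
    rw [e]
    exact O_sub (O_sum hgO) (O_mono hexp (by norm_num))
  · have e : 1 - ∏ l ∈ range n, (1 - g l) - ∑ l ∈ range n, ((t l)^2/2 + 3*(t l)^3/4)
        = (∑ l ∈ range n, g l - ∑ l ∈ range n, ((t l)^2/2 + 3*(t l)^3/4))
          - (∏ l ∈ range n, (1 - g l) - (1 - ∑ l ∈ range n, g l)) := by ring
    rw [e]
    exact O_sub hsum hexp
  · have e : 1 - (1 - ∏ l ∈ range n, (1 - g l)) = ∏ l ∈ range n, (1 - g l) := by ring
    rw [e, ← prod_mul_distrib, ← prod_mul_distrib]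
    refine prod_congr rfl ?_
    intro l hl
    have hl' := ht l (mem_range.mp hl)
    have n1 := norm_one_sub hl'
    have n2 := norm_one_sub (O_int_half h2 hl')
    have z1 : (1-t l) ≠ 0 := by
      intro h0
      rw [h0, padicNorm.zero] at n1
      norm_num at n1
    have z2 : (1-t l/2) ≠ 0 := by
      intro h0
      rw [h0, padicNorm.zero] at n2
      norm_num at n2
    rw [hg]
    simp only
    have e3 : (1 - (t l)^2/2/((1-t l)*(1-t l/2))) * ((1-t l/2)*(1-t l)) = (1-t l)*(1-t l/2) - (t l)^2/2 := by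
      rw [mul_comm (1-t l/2) (1-t l), sub_mul, div_mul_cancel₀ _ (mul_ne_zero z1 z2)]
      ring
    rw [e3]
    ring

end

end Pool.Agent.H9.Super
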