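import Pool.Agent.H9.SuperG

namespace Pool.Agent.H9.Super

open Finset

section
set_option linter.unusedSectionVars false
variable {p : ℕ} [hp : Fact p.Prime]

lemma ne_zero_of_norm {y : ℚ} (hy : padicNorm p y = 1) : y ≠ 0 := by
  intro h0
  rw [h0, padicNorm.zero] at hy
  norm_num at hy

lemma padic_main (h2 : p ≠ 2) (r n : ℕ) (hN : p^r = 2*n+1) :
    O p (r+4) ((∑ k ∈ range (n+1), (4*(k:ℚ)+1) * be k ^ 4)
      - ∑ k ∈ range (2*n+1), (3*(k:ℚ)+1) * be k ^ 3 * 4^k) := by
  rw [sumA, sumB, ← mul_sub]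
  have ht : ∀ l < n, O p 1 ((2*(n:ℚ)+1)/((l+1:ℕ):ℚ)) := by
    intro l hl
    have := O_t (p := p) (r := r) (l := l+1) (by omega) (by rw [hN]; omega)
    rw [hN] at this
    push_cast at this ⊢
    exact this
  have ht2 : ∀ l < n, O p 1 (2*(2*(n:ℚ)+1)/((2*l+1:ℕ):ℚ)) := by
    intro l hl
    have := O_t (p := p) (r := r) (l := 2*l+1) (by omega) (by rw [hN]; omega)
    rw [hN] at this
    have h3 := O_nat_mul this 2
    have e : 2*(2*(n:ℚ)+1)/((2*l+1:ℕ):ℚ) = ((2:ℕ):ℚ) * (((2*n+1:ℕ):ℚ)/((2*l+1:ℕ):ℚ)) := by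
      push_cast
      ring
    rw [e]
    exact h3
  have hx : O p r (2*(n:ℚ)+1) := by
    have h1 : (2*(n:ℚ)+1) = ((p:ℚ))^r := by
      have : ((p^r:ℕ):ℚ) = ((2*n+1:ℕ):ℚ) := by rw [hN]
      push_cast at this
      exact this.symm
    rw [h1]
    have hp1 : O p 1 (p:ℚ) := by
      unfold O
      rw [padicNorm.padicNorm_p_of_prime]
      simp
    exact O_pow hp1 r
  -- nonvanishing
  have h3ne : ∀ l : ℕ, l < n → 1 - 3*((2*(n:ℚ)+1)/((l+1:ℕ):ℚ))/2 ≠ 0 := by
    intro l hl
    have h3t : O p 1 (3*((2*(n:ℚ)+1)/((l+1:ℕ):ℚ))) := by simpa using O_nat_mul (ht l hl) 3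
    exact ne_zero_of_norm (norm_one_sub (O_int_half h2 h3t))
  set t : ℕ → ℚ := fun l => (2*(n:ℚ)+1)/((l+1:ℕ):ℚ) with htdef
  -- S_B
  set sB : ℕ → ℚ := fun k => (t k)^2/2 * ((∏ l ∈ range (k+1), (1 - 2*(2*(n:ℚ)+1)/((2*l+1:ℕ):ℚ))) *
        ((∏ l ∈ range k, (1 + t l/2)) * ∏ l ∈ range k, (1 - t l)) /
          ((∏ l ∈ range k, (1 - 3*(t l)/2)) * (1 - 3*(t k)/2))) with hsB
  have hbb : ∀ k ∈ range n, bb n (k+1) = - bb n 0 * sB k := by
    intro k hk
    have hk' := mem_range.mp hk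
    rw [bb_closed n k (by omega) h3ne, hsB]
    simp only
    rw [prod_range_succ (fun l : ℕ => 1 - 3*((2*(n:ℚ)+1)/((l+1:ℕ):ℚ))/2) k, prod_mul_distrib]
  have hest : ∀ k ∈ range n, O p 4 (aa n (k+1) + sB k - ((t k)^2 + (t k)^3)) ∧ O p 2 (sB k) := by
    intro k hk
    have hk' := mem_range.mp hk
    obtain ⟨R, hR1, hR2⟩ := R_est h2 k t (fun l hl => ht l (by omega))
    have hV : O p 1 (∏ l ∈ range k, (1 - t l) - 1) := by
      apply O_prod_sub_one
      intro l hl
      have := ht l (by have := mem_range.mp hl; omega)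
      have e : 1 - t l - 1 = -(t l) := by ring
      rw [e]
      exact O_neg this
    have hU : O p 1 (∏ l ∈ range (k+1), (1 - 2*(2*(n:ℚ)+1)/((2*l+1:ℕ):ℚ)) - 1) := by
      apply O_prod_sub_one
      intro l hl
      have := ht2 l (by have := mem_range.mp hl; omega)
      have e : 1 - 2*(2*(n:ℚ)+1)/((2*l+1:ℕ):ℚ) - 1 = -(2*(2*(n:ℚ)+1)/((2*l+1:ℕ):ℚ)) := by ring
      rw [e]
      exact O_neg this
    have hW : O p 1 (∏ l ∈ range k, (1 + t l/2) - 1) := by
      apply O_prod_sub_one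
      intro l hl
      have := ht l (by have := mem_range.mp hl; omega)
      have e : 1 + t l/2 - 1 = t l/2 := by ring
      rw [e]
      exact O_int_half h2 this
    have hX : O p 1 (∏ l ∈ range k, (1 - 3*(t l)/2) - 1) := by
      apply O_prod_sub_one
      intro l hl
      have := ht l (by have := mem_range.mp hl; omega)
      have h3t : O p 1 (3*(t l)) := by
        have h33 := O_nat_mul this 3
        rwa [Nat.cast_ofNat] at h33
      have e : 1 - 3*(t l)/2 - 1 = -(3*(t l)/2) := by ring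
      rw [e]
      exact O_neg (O_int_half h2 h3t)
    have := term_est h2 (t k) _ _ _ _ R (ht k hk') hV hU hW hX hR1 hR2
    rw [aa_closed n k (by omega)]
    exact this
  have hSB : O p 2 (∑ k ∈ range n, sB k) := O_sum (fun k hk => (hest k hk).2)
  have hS : O p 4 (∑ k ∈ range n, aa n (k+1) + ∑ k ∈ range n, sB k - ∑ k ∈ range n, ((t k)^2 + (t k)^3)) := by
    rw [← sum_add_distrib, ← sum_sub_distrib]
    exact O_sum (fun k hk => (hest k hk).1)
  obtain ⟨G, hG1, hG2, hG3⟩ := G_est h2 n t ht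
  have hpar := parity_sum h2 n ht
  -- the key combination
  have hkey : O p 4 (∑ k ∈ range n, aa n (k+1) + ∑ k ∈ range n, sB k + G - G * ∑ k ∈ range n, sB k) := by
    have e : ∑ k ∈ range n, aa n (k+1) + ∑ k ∈ range n, sB k + G - G * ∑ k ∈ range n, sB k
        = (∑ k ∈ range n, aa n (k+1) + ∑ k ∈ range n, sB k - ∑ k ∈ range n, ((t k)^2 + (t k)^3))
          + (G - ∑ l ∈ range n, ((t l)^2/2 + 3*(t l)^3/4))
          + (∑ l ∈ range n, (3/2*(t l)^2 + 7/4*(t l)^3)) - G * ∑ k ∈ range n, sB k := by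
      have e1 : ∑ l ∈ range n, (3/2*(t l)^2 + 7/4*(t l)^3)
          = ∑ k ∈ range n, ((t k)^2 + (t k)^3) + ∑ l ∈ range n, ((t l)^2/2 + 3*(t l)^3/4) := by
        rw [← sum_add_distrib]
        refine sum_congr rfl ?_
        intro l _
        ring
      rw [e1]
      ring
    rw [e]
    have h5 : O p (2+2) (G * ∑ k ∈ range n, sB k) := O_mul hG1 hSB
    exact O_sub (O_add (O_add hS hG2) hpar) h5
  -- products
  have hprod := bb_zero n
  have hbe := be_prod n
  have nF : padicNorm p (∏ l ∈ range n, (1 - t l)) = 1 := by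
    apply norm_prod_one
    intro l hl
    exact norm_one_sub (ht l (mem_range.mp hl))
  have zF := ne_zero_of_norm nF
  have nH : padicNorm p (∏ l ∈ range n, (1 - t l/2)) = 1 := by
    apply norm_prod_one
    intro l hl
    exact norm_one_sub (O_int_half h2 (ht l (mem_range.mp hl)))
  have hsumbb : ∑ k ∈ range n, bb n (k+1) = - bb n 0 * ∑ k ∈ range n, sB k := by
    rw [mul_sum]
    exact sum_congr rfl hbb
  rw [hsumbb]
  have hD : O p 4 (be n ^ 2 * (1 + ∑ k ∈ range n, aa n (k+1)) - (bb n 0 + - bb n 0 * ∑ k ∈ range n, sB k)) := by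
    set SA := ∑ k ∈ range n, aa n (k+1) with hSA
    set SB := ∑ k ∈ range n, sB k with hSB'
    have hprod' : bb n 0 * ∏ l ∈ range n, (1 - t l) = (-1)^n * be n * ∏ l ∈ range n, (1 - 3*(t l)/2) := hprod
    have hbe' : ∏ l ∈ range n, (1 - t l/2) = (-1)^n * be n := hbe
    set F := ∏ l ∈ range n, (1 - t l) with hF
    set H := ∏ l ∈ range n, (1 - t l/2) with hH
    have hsq : ((-1:ℚ)^n)*((-1:ℚ)^n) = 1 := by
      rw [← mul_pow]
      simp
    have e : be n ^ 2 * (1 + SA) - (bb n 0 + - bb n 0 * SB)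
        = (H * H * F * (SA + SB + G - G*SB)) / F := by
      rw [eq_div_iff zF]
      have e1 : (be n ^ 2 * (1 + SA) - (bb n 0 + - bb n 0 * SB)) * F
          = be n ^ 2 * F * (1+SA) - (bb n 0 * F) * (1 - SB) := by ring
      have hb2 : be n ^ 2 = H * H := by
        rw [hbe']
        have : (-1:ℚ)^n * be n * ((-1)^n * be n) = ((-1:ℚ)^n*(-1)^n) * be n^2 := by ring
        rw [this, hsq, one_mul]
      rw [e1, hprod', hG3, ← hbe', hb2]
      ring
    rw [e]
    apply O_div_unit _ nF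
    have iH : O p 0 H := O_of_norm_one nH
    have iF : O p 0 F := O_of_norm_one nF
    exact O_int_mul (O_mul_int (O_mul_int iH iH) iF) hkey
  apply O_mul _ hD
  exact O_mul_int (by simpa using O_nat_mul hx 2) (be_int h2 _)

/-- from the norm estimate to the denominators -/
lemma den_coprime {m : ℕ} {x : ℚ} (h : O p m x) : (x / (p:ℚ)^m).den.Coprime p := by
  have h0 : (p:ℚ) ≠ 0 := by exact_mod_cast hp.out.ne_zero
  have h1 : padicNorm p (x/(p:ℚ)^m) ≤ 1 := by
    rw [padicNorm.div]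
    have hpm : padicNorm p ((p:ℚ)^m) = (p:ℚ)^(-(m:ℤ)) := by
      induction m with
      | zero => simp
      | succ m ih =>
        have hm : padicNorm p ((p:ℚ)^m) = (p:ℚ)^(-(m:ℤ)) := by
          clear ih h
          induction m with
          | zero => simp
          | succ m ih =>
            rw [pow_succ, padicNorm.mul, ih, padicNorm.padicNorm_p_of_prime]
            rw [← zpow_neg_one, ← zpow_add₀ h0]
            congr 1
            push_cast
            ring
        rw [pow_succ, padicNorm.mul, hm, padicNorm.padicNorm_p_of_prime]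
        rw [← zpow_neg_one, ← zpow_add₀ h0]
        congr 1
        push_cast
        ring
    rw [hpm]
    have hpos : (0:ℚ) < (p:ℚ)^(-(m:ℤ)) := by
      have : (0:ℚ) < p := by exact_mod_cast hp.out.pos
      positivity
    rw [div_le_one hpos]
    exact h
  generalize x/(p:ℚ)^m = q at *
  rw [Nat.coprime_comm, Nat.Prime.coprime_iff_not_dvd hp.out]
  intro hd
  have hnum : ¬ (p:ℤ) ∣ q.num := by
    intro hn
    have hn' : p ∣ q.num.natAbs := Int.natCast_dvd.mp hn
    have := Nat.dvd_gcd hn' hd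
    rw [q.reduced.gcd_eq_one] at this
    exact hp.out.one_lt.ne' (Nat.dvd_one.mp this)
  have n1 : padicNorm p (q.num:ℚ) = 1 := (padicNorm.int_eq_one_iff _).mpr hnum
  have n2 : padicNorm p (q.den:ℚ) < 1 := (padicNorm.nat_lt_one_iff _).mpr hd
  have hq : q = (q.num:ℚ)/(q.den:ℚ) := (Rat.num_div_den q).symm
  rw [hq, padicNorm.div, n1] at h1
  have hpos : 0 < padicNorm p (q.den:ℚ) := by
    have hne : (q.den:ℚ) ≠ 0 := by exact_mod_cast q.den_ne_zero
    exact lt_of_le_of_ne (padicNorm.nonneg _) (Ne.symm (padicNorm.nonzero hne))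
  rw [div_le_one hpos] at h1
  linarith

end

end Pool.Agent.H9.Super
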